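import Pool.Agent.Q270.PX.Conv
import Pool.Agent.Q270.PX.Str2

/-!
# Tuples of real algebraic functions at the integers and at the primes

Let `y_1, …, y_r` be real algebraic functions over `ℚ`, continuous on a half line. Their values
`y_j(m)` at the integers `m` are real algebraic numbers. It is shown that, if no nontrivial
integer combination of the `y_j` is the sum of a constant and a polynomial with rational
coefficients, the tuples `(y_1(m), …, y_r(m))` are jointly normal in all bases, for almost all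
integers `m` and for almost all primes `m` of every reduced residue class, up to a proportion
`N ^ (-c)` of the `m ≤ N`: all digit matrices have the right frequency in all windows
between the places `κ log N` and `A log N`, for every `A`, and the number of the occurrences of a
digit matrix obeys the central limit theorem. If some nontrivial integer combination is a
polynomial with rational coefficients, then in every base some digit matrix does not occur at all
in these tuples. The only case left open, that of a combination which is the sum of a polynomial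
with rational coefficients and an irrational constant, contains the conjecture of Borel for this
constant.

Proof. Newton–Puiseux expansions at infinity with real algebraic coefficients; if a combination
with frequency `l` has a nonzero coefficient at an exponent which is not a natural number, the
`p`-adic subspace theorem bounds the coefficient from below, and the exponential sum saves a power
by the method of van der Corput (with the identity of Vaughan for the primes). Otherwise the
combination is a polynomial, one of whose nonconstant coefficients is irrational, hence by the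
subspace theorem not close to rational numbers with small denominators, and the inequality of Weyl
(for primes that of Vinogradov) is used.
-/

set_option autoImplicit false

namespace Pool.Agent.Results.MP_c8ecb2_nt.AlgebraicFunctionTuples

open Filter Topology MeasureTheory ProbabilityTheory Polynomial

/-- real algebraic functions over `ℚ` near infinity: `y` is continuous on a half line `[x₀, ∞)`, where
`P(x, y(x)) = 0` for a nonzero polynomial `P` in two variables with rational coefficients -/
def AlgFun (y : ℝ → ℝ) : Prop :=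
  ∃ (P : ℚ[X][X]) (x₀ : ℝ), P ≠ 0 ∧ ContinuousOn y (Set.Ici x₀) ∧
    ∀ x, x₀ ≤ x → (P.map (mapRingHom (algebraMap ℚ ℝ))).evalEval x (y x) = 0

/-- the primes `p ≤ N` which are congruent to `a` modulo `q` -/
def Primes (a q N : ℕ) : Set ℕ := {p | p.Prime ∧ p ≡ a [MOD q] ∧ p ≤ N}

/-- the integers `1, …, N` -/
def Ints (N : ℕ) : Set ℕ := {m | 1 ≤ m ∧ m ≤ N}

/-- the index sets: all integers, or the primes of a reduced residue class, up to `N` -/
def Index (I : ℕ → Set ℕ) : Prop := I = Ints ∨ ∃ a q : ℕ, 1 ≤ q ∧ a.Coprime q ∧ I = Primes a q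

/-- the word of the `k` digits in base `b` of `y` which follow the first `n` digits after the point,
read as an integer between `0` and `b ^ k - 1` -/
noncomputable def word (b k n : ℕ) (y : ℝ) : ℕ :=
  ⌊(b : ℝ) ^ k * Int.fract ((b : ℝ) ^ n * y)⌋₊

/-- For all bases `2 ≤ b_j ≤ B`, all `r × k` digit matrices, `k ≤ w`, with the rows `D_j < b_j ^ k`, all
starting places `s_j` with `b_j ^ s_j ≥ T₀` and all `L` with `s_j + L ≤ T`, the number of the `i < L`
such that for every `j` the word of `k` digits in base `b_j` of `z_j` after the place `s_j + i` is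
`D_j` differs from `L / ∏ b_j ^ k` by at most `E`. -/
def NormalBetween {r : ℕ} (B w : ℕ) (T₀ T E : ℝ) (z : Fin r → ℝ) : Prop :=
  ∀ b : Fin r → ℕ, (∀ j, 2 ≤ b j ∧ b j ≤ B) → ∀ (k : ℕ) (D s : Fin r → ℕ) (L : ℕ), 1 ≤ k → k ≤ w →
    (∀ j, D j < b j ^ k) → (∀ j, T₀ ≤ (b j : ℝ) ^ s j) → (∀ j, (s j : ℝ) + L ≤ T) →
    |(({i : ℕ | i < L ∧ ∀ j, word (b j) k (s j + i) (z j) = D j}.ncard : ℕ) : ℝ) -
      L / ∏ j, (b j : ℝ) ^ k| ≤ E

/-- the mean of `F` over the tuples of words of `w` digits, in base `b_j` for the index `j` -/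
noncomputable def mean {r : ℕ} (b : Fin r → ℕ) (w : ℕ) (F : (Fin r → ℕ) → ℝ) : ℝ :=
  (∑ c ∈ Fintype.piFinset fun j => Finset.range (b j ^ w), F c) / ((∏ j, b j : ℕ) : ℝ) ^ w

/-- the covariance of the values of `F` at two tuples of words of random digits at the distance `h` -/
noncomputable def cov {r : ℕ} (b : Fin r → ℕ) (w : ℕ) (F : (Fin r → ℕ) → ℝ) (h : ℕ) : ℝ :=
  (∑ c ∈ Fintype.piFinset fun j => Finset.range (b j ^ (w + h)),
    (F (fun j => c j / b j ^ h) - mean b w F) * (F (fun j => c j % b j ^ w) - mean b w F)) /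
    ((∏ j, b j : ℕ) : ℝ) ^ (w + h)

/-- the asymptotic variance of the sums of `F` over the tuples of words of `w` digits -/
noncomputable def variance {r : ℕ} (b : Fin r → ℕ) (w : ℕ) (F : (Fin r → ℕ) → ℝ) : ℝ :=
  cov b w F 0 + 2 * ∑ h ∈ Finset.Ico 1 w, cov b w F h

/-- the finite index sets -/
lemma Index_fin {I : ℕ → Set ℕ} (hI : Index I) : ∃ J : ℕ → Finset ℕ,
    (∀ N, I N = ((J N : Finset ℕ) : Set ℕ)) ∧ Pool.Agent.Q270.SQ.GoodI J ∧
      Pool.Agent.Q270.PX.WeylI J := by
  rcases hI with rfl | ⟨a, q, hq, haq, rfl⟩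
  · refine ⟨fun N => Finset.Ioc 0 N, fun N => ?_, Pool.Agent.Q270.SQ.goodI_int,
      Pool.Agent.Q270.PX.weylI_int⟩
    ext m
    simp only [Ints, Set.mem_ofPred_eq, Finset.coe_Ioc, Set.mem_Ioc]
    omega
  · refine ⟨Pool.Agent.Q270.SP.PrA a q, fun N => ?_, Pool.Agent.Q270.SQ.goodI_PrA a q hq haq,
      Pool.Agent.Q270.PX.weylI_PrA a q hq⟩
    ext p
    simp only [Primes, Pool.Agent.Q270.SP.PrA, Set.mem_ofPred_eq, Finset.coe_filter,
      Finset.mem_Ioc]
    constructor
    · rintro ⟨h1, h2, h3⟩
      exact ⟨⟨h1.pos, h3⟩, h1, h2⟩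
    · rintro ⟨⟨_, h3⟩, h1, h2⟩
      exact ⟨h1, h2, h3⟩

open Classical in
lemma ncard_eq {S : Set ℕ} {T : Finset ℕ} (h : S = ((T : Finset ℕ) : Set ℕ)) (p : ℕ → Prop) :
    ({m ∈ S | p m}.ncard : ℕ) = (T.filter p).card := by
  have h1 : {m ∈ S | p m} = ((T.filter p : Finset ℕ) : Set ℕ) := by
    rw [Finset.coe_filter, h]
    rfl
  rw [h1, Set.ncard_coe_finset]

lemma cnt_eq {r : ℕ} (b : Fin r → ℕ) (k : ℕ) (s D : Fin r → ℕ) (L : ℕ) (z : Fin r → ℝ) :
    {i : ℕ | i < L ∧ ∀ j, word (b j) k (s j + i) (z j) = D j}.ncard =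
    ((Finset.range L).filter
      (fun i => Pool.Agent.Y951.TU.tw b k (fun j => s j + i) z = D)).card := by
  have h2 : {i : ℕ | i < L ∧ ∀ j, word (b j) k (s j + i) (z j) = D j} =
      (((Finset.range L).filter
        (fun i => Pool.Agent.Y951.TU.tw b k (fun j => s j + i) z = D) : Finset ℕ) : Set ℕ) := by
    ext i
    simp only [Set.mem_ofPred_eq, Finset.coe_filter, Finset.mem_range, funext_iff]
    rfl
  rw [h2, Set.ncard_coe_finset]

open Classical in
/-- Let `y_1, …, y_r`, `r ≥ 1`, be real algebraic functions over `ℚ` near infinity.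

(0) For large integers `m` the numbers `y_j(m)` are algebraic.

(1) Suppose that no nontrivial integer combination of the `y_j` is near infinity the sum of a real
constant and a polynomial with rational coefficients. Then there is `κ ≥ 0` with the following
properties. Let `I_N` be the set of all integers `1, …, N` or the set of the primes `p ≤ N` of a reduced
residue class, and let `A` be given.

(1a) For all `B`, `w` and `ε > 0` there is `c > 0` such that for large `N`, uniformly in the real numbers
`v_j`, all but a proportion `N ^ (-c)` of the `m ∈ I_N` are such that the vector with the entries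
`y_j(m) + v_j` satisfies `NormalBetween B w (N ^ κ) (A log N) (ε log N)`: all digit matrices with at
most `w` columns, in all bases `b_j ≤ B`, have the right frequency in all windows between the places
`κ log N / log b_j` and `A log N`.

(1b) Let `b_j, w ≥ 1` and let `F` be a function of the tuples of words of `w` digits in the bases `b_j`
with a positive asymptotic variance (for instance the indicator function of a digit column, if not
all `b_j` are `1`). If `L_N → ∞`, `b_j ^ s_{N,j} ≥ N ^ κ` and `s_{N,j} + L_N ≤ A log N` for all `j`, then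
the proportion of the `m ∈ I_N` for which the sum of `F` over the tuples of words of
`(y_j(m) + v_{N,j})` after the places `s_{N,j} + i`, `i < L_N`, is at most
`L_N mean + t √(variance L_N)` tends to the value at `t` of the distribution function of the
standard normal distribution.

(2) Suppose that a nontrivial integer combination of the `y_j` is near infinity a polynomial with
rational coefficients. Then for every base `b ≥ 2` there is a digit matrix which does not occur in
`(y_1(m), …, y_r(m))` at any place, for all large integers `m`. -/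
theorem result (r : ℕ) (hr : 1 ≤ r) (y : Fin r → ℝ → ℝ) (hy : ∀ j, AlgFun (y j)) :
    (∀ j, ∀ᶠ m : ℕ in atTop, IsAlgebraic ℚ (y j m)) ∧
    ((∀ l : Fin r → ℤ, l ≠ 0 → ∀ (c : ℝ) (f : ℚ[X]),
        ¬ ∀ᶠ x : ℝ in atTop, ∑ j, (l j : ℝ) * y j x = c + (f.map (algebraMap ℚ ℝ)).eval x) →
      ∃ κ : ℝ, 0 ≤ κ ∧ ∀ I : ℕ → Set ℕ, Index I → ∀ A : ℝ,
      (∀ (B w : ℕ) (ε : ℝ), 0 < ε → ∃ c : ℝ, 0 < c ∧ ∃ N₀ : ℕ, ∀ N : ℕ, N₀ ≤ N →
        ∀ v : Fin r → ℝ,
        (({m ∈ I N | ¬ NormalBetween B w ((N : ℝ) ^ κ) (A * Real.log N) (ε * Real.log N)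
            (fun j => y j m + v j)}.ncard : ℕ) : ℝ) ≤ (N : ℝ) ^ (-c) * ((I N).ncard : ℝ)) ∧
      (∀ (b : Fin r → ℕ) (w : ℕ) (F : (Fin r → ℕ) → ℝ), (∀ j, 1 ≤ b j) → 1 ≤ w →
        0 < variance b w F →
        ∀ (v : ℕ → Fin r → ℝ) (s : ℕ → Fin r → ℕ) (L : ℕ → ℕ), Tendsto L atTop atTop →
        (∀ᶠ N : ℕ in atTop, ∀ j, (N : ℝ) ^ κ ≤ (b j : ℝ) ^ s N j) →
        (∀ᶠ N : ℕ in atTop, ∀ j, (s N j : ℝ) + L N ≤ A * Real.log N) → ∀ t : ℝ,
        Tendsto (fun N : ℕ => (({m ∈ I N |
            ∑ i ∈ Finset.range (L N), F (fun j => word (b j) w (s N j + i)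
              (y j m + v N j)) ≤
              L N * mean b w F + t * √(variance b w F * L N)}.ncard : ℕ) : ℝ) /
            ((I N).ncard : ℝ)) atTop (𝓝 ((gaussianReal 0 1).real (Set.Iic t))))) ∧
    (∀ l : Fin r → ℤ, l ≠ 0 → ∀ f : ℚ[X],
      (∀ᶠ x : ℝ in atTop, ∑ j, (l j : ℝ) * y j x = (f.map (algebraMap ℚ ℝ)).eval x) →
      ∀ b : ℕ, 2 ≤ b → ∃ k : ℕ, 1 ≤ k ∧ ∃ D : Fin r → ℕ, (∀ j, D j < b ^ k) ∧
        ∀ᶠ m : ℕ in atTop, ∀ s : ℕ, ¬ ∀ j, word b k s (y j m) = D j) := by
  refine ⟨fun j => Pool.Agent.Q270.PX.values_alg (hy j), ?_,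
    fun l hl f hf b hb => Pool.Agent.Q270.PX.conv l hl f hf b hb⟩
  intro hind
  obtain ⟨D, q, G, g, H⟩ := Pool.Agent.Q270.PX.tup_of_alg hy hind
  obtain ⟨κ, hκ, hgoodκ⟩ := Pool.Agent.Q270.PX.good_S H
  refine ⟨κ, hκ, fun I hI A => ?_⟩
  obtain ⟨J, hJ, hJG, hJW⟩ := Index_fin hI
  have hgood := hgoodκ J hJG hJW
  have hprob := Pool.Agent.Q270.PX.SY_prob y J
  have hcard : ∀ N, ((I N).ncard : ℕ) = (J N).card := fun N => by
    rw [hJ, Set.ncard_coe_finset]
  obtain ⟨M1, hM1⟩ := eventually_atTop.1 ((hJG.2.1 (1 / 2) (by norm_num)).and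
    (eventually_ge_atTop 1))
  have hne : ∀ N : ℕ, M1 ≤ N → (J N).Nonempty := fun N hN => by
    obtain ⟨h1, h2⟩ := hM1 N hN
    rw [← Finset.card_pos]
    have h3 : (0 : ℝ) < (N : ℝ) ^ (1 - (1 / 2 : ℝ)) := by
      have : (0 : ℝ) < N := by exact_mod_cast h2
      positivity
    exact_mod_cast h3.trans_le h1
  refine ⟨?_, ?_⟩
  · intro B w ε hε
    obtain ⟨c, hc, M0, hM0⟩ := Pool.Agent.Q270.PX.normal_all_S hprob hgood hr B w A ε hε
    refine ⟨c, hc, max M0 M1, fun N hN v => ?_⟩
    have hN1 := hne N (le_of_max_le_right hN)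
    have h1 := hM0 N (le_of_max_le_left hN) (J N) (fun m j => y j m + v j) hN1 ⟨hN1, v, rfl⟩
    rw [ncard_eq (hJ N), hcard, mul_comm ((N : ℝ) ^ (-c))]
    refine le_trans (Nat.cast_le.2 (Finset.card_le_card fun p hp => ?_)) h1
    simp only [Finset.mem_filter] at hp ⊢
    refine ⟨hp.1, fun h2 => hp.2 ?_⟩
    intro b hb k D s L hk hkw hD hs hsL
    rw [cnt_eq]
    have h3 : (∏ j, (b j : ℝ) ^ k) = ((∏ j, b j : ℕ) : ℝ) ^ k := by
      rw [Finset.prod_pow]
      push_cast
      rfl
    rw [h3]
    exact h2 b hb k D s L hk hkw hD hs hsL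
  · intro b w F hb hw hF v s L hL hsκ hsL t
    have key := Pool.Agent.Q270.PX.clt_S (ι := ℕ) hprob hgood hb hw F hF A J
      (fun N m j => y j m + v N j) (by
        filter_upwards [eventually_ge_atTop M1] with N h2
        exact ⟨hne N h2, hne N h2, v N, rfl⟩) s L hr hL hsκ hsL t
    refine key.congr fun N => ?_
    rw [ncard_eq (hJ N), hcard]
    congr 2
    apply congrArg Finset.card
    refine Finset.filter_congr fun m _ => ?_
    have h1 : ∑ i ∈ Finset.range (L N), F (Pool.Agent.Y951.TU.tw b w (fun j => s N j + i)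
        (fun j => y j m + v N j)) =
        ∑ i ∈ Finset.range (L N), F (fun j => word (b j) w (s N j + i)
          (y j m + v N j)) := rfl
    have h2 : Pool.Agent.Y951.TU.mnT b w F = mean b w F := rfl
    have h3 : Pool.Agent.Y951.TU.cvT b w F 0 +
        2 * ∑ h ∈ Finset.Ico 1 w, Pool.Agent.Y951.TU.cvT b w F h = variance b w F := rfl
    rw [h1, h2, h3, sub_le_iff_le_add, add_comm (L N * mean b w F)]

end Pool.Agent.Results.MP_c8ecb2_nt.AlgebraicFunctionTuples
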