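import Pool.Agent.Q270.RT.Total

/-!
# All the roots of almost all integer polynomials are jointly normal

The question is whether real algebraic numbers `x_1, …, x_n` for which `1, x_1, …, x_n` are linearly
independent over `ℚ` form a normal tuple. It is proved that for almost all integer polynomials `P` of
degree `d` all its roots, real and complex, and their powers, behave in this way up to any fixed multiple
of `log H` digits, `H` the height of `P`, and with the error term of random numbers. The coordinates are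
the real parts of the powers `z ^ k`, `k ≤ m`, of the roots `z` of `P` with `Im z ≥ 0` and the imaginary
parts of the powers of the roots with `Im z > 0` (the other roots are the complex conjugates of these);
for `d` distinct roots these are `d m` numbers. For all `P` with coefficients bounded by `H`, up to
`o(H ^ (d + 1))` of them, all these coordinates, each of them in any base up to `B`, or even in several
bases any two of which are multiplicatively independent, are jointly equidistributed in all windows of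
places between `κ log H` and `A log H` with the discrepancy `(log H) ^ (1/2 + ε)`, and with the
discrepancy `ε log H` in all windows below `A log H`. In regions without multiple roots the number of
the exceptions is at most `H ^ (d + 1) (log H) ^ (-T)` for every `T`.

Proof. Near a polynomial without multiple roots the roots are analytic functions of the coefficients
which are homogeneous of degree zero. No nontrivial real combination of the coordinates is constant:
one root (or a pair of conjugate roots) is moved, the others being kept; the combination is then the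
real part of a polynomial in this root. A homogeneous function of degree zero, analytic at a point,
which is not constant is not a polynomial near this point, so derivatives of arbitrarily high
order in integer directions do not vanish. By compactness, finitely many directions and orders
are sufficient for all frequencies. The exponential sums over the polynomials in a small box are
therefore small by van der Corput's method (`Q270.SP.piece`) for all frequencies between `H ^ κ` and
`H ^ A`. From this the digits are treated as in `Q270.MB`.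
-/

set_option autoImplicit false

namespace Pool.Agent.Results.MP_c8ecb2_nt.AllRoots

open Filter Topology MeasureTheory
open Pool.Agent.Q270.RT (cv cd Zc Bad compact_rate global scaled_finite Disc_drop)
open Pool.Agent.Q270.SR (Disc)

/-- the real part (`false`) or the imaginary part (`true`) -/
def part (τ : Bool) (z : ℂ) : ℝ := if τ then z.im else z.re

/-- no positive powers of `a` and `b` are equal -/
def MultIndep (a b : ℕ) : Prop := ∀ x y : ℕ, 1 ≤ x → 1 ≤ y → a ^ x ≠ b ^ y

/-- the discrepancy of the `L` points `(b_1 ^ (s_1 + i) x_1, …, b_n ^ (s_n + i) x_n)`, `i < L`, modulo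
one is at most `E`: the number of the `i < L` such that the fractional part of `b_j ^ (s_j + i) x_j` is
smaller than `t_j` for all `j` differs from `L ∏ t_j` by at most `E`, for all `0 ≤ t_j ≤ 1` -/
def DiscLe {n : ℕ} (b s : Fin n → ℕ) (L : ℕ) (x : Fin n → ℝ) (E : ℝ) : Prop :=
  ∀ t : Fin n → ℝ, (∀ j, 0 ≤ t j) → (∀ j, t j ≤ 1) →
    |(({i : ℕ | i < L ∧ ∀ j, Int.fract ((b j : ℝ) ^ (s j + i) * x j) < t j}.ncard : ℕ) : ℝ) -
      L * ∏ j, t j| ≤ E

/-- a system of coordinates of the polynomial `∑ a_i X ^ i`: the `z_j` are roots with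
`Im z_j ≥ 0`, the `j`-th coordinate is the real or the imaginary part of `z_j ^ (k_j)`,
`1 ≤ k_j ≤ m` (the imaginary part only if `z_j` is not real), and it is taken in the base `b_j`; the
same coordinate is taken in multiplicatively independent bases only -/
structure System {d : ℕ} (m B : ℕ) (a : Fin (d + 1) → ℤ) {n : ℕ} (z : Fin n → ℂ) (k : Fin n → ℕ)
    (τ : Fin n → Bool) (b : Fin n → ℕ) : Prop where
  root : ∀ j, ∑ i, (a i : ℂ) * z j ^ (i : ℕ) = 0
  upper : ∀ j, 0 ≤ (z j).im
  im : ∀ j, τ j = true → 0 < (z j).im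
  exponent : ∀ j, 1 ≤ k j ∧ k j ≤ m
  base : ∀ j, 2 ≤ b j ∧ b j ≤ B
  indep : ∀ j j', j ≠ j' → z j = z j' → k j = k j' → τ j = τ j' → MultIndep (b j) (b j')

/-- all systems of coordinates of the polynomial are jointly equidistributed: the discrepancy is at
most `ε log H` in all windows of places below `A log H`, and at most `(log H) ^ (1/2 + ε)` if the
windows begin after the first `κ log H` places (in the sense of `H ^ κ ≤ b_j ^ (s_j)`) -/
def JointlyNormal {d : ℕ} (m B : ℕ) (A κ ε : ℝ) (H : ℕ) (a : Fin (d + 1) → ℤ) : Prop :=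
  ∀ (n : ℕ) (z : Fin n → ℂ) (k : Fin n → ℕ) (τ : Fin n → Bool) (b : Fin n → ℕ),
    System m B a z k τ b → ∀ (s : Fin n → ℕ) (L : ℕ), 1 ≤ n →
    (∀ j, (s j : ℝ) + L ≤ A * Real.log H) →
    DiscLe b s L (fun j => part (τ j) (z j ^ k j)) (ε * Real.log H) ∧
    ((∀ j, (H : ℝ) ^ κ ≤ (b j : ℝ) ^ s j) →
      DiscLe b s L (fun j => part (τ j) (z j ^ k j)) (Real.log H ^ (1 / 2 + ε)))

lemma disc_iff {n : ℕ} (b s : Fin n → ℕ) (L : ℕ) (x : Fin n → ℝ) (E : ℝ) :
    DiscLe b s L x E ↔ Disc b s L x E := by
  classical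
  unfold DiscLe Disc
  refine forall_congr' fun t => ?_
  have h : {i : ℕ | i < L ∧ ∀ j, Int.fract ((b j : ℝ) ^ (s j + i) * x j) < t j} =
      (((Finset.range L).filter (fun i => ∀ j, Int.fract ((b j : ℝ) ^ (s j + i) * x j) < t j) :
        Finset ℕ) : Set ℕ) := by
    ext i
    simp
  rw [h, Set.ncard_coe_finset]

/-- a polynomial which is not jointly normal is bad -/
lemma bad_of_not {d m B : ℕ} {A κ κ' ε : ℝ} {H : ℕ} (hH1 : 1 ≤ H) (hκ' : κ' ≤ κ)
    (hlog : ⌈κ' * Real.log H / Real.log 2⌉₊ + Real.log H ^ (1 / 2 + ε) ≤ ε * Real.log H)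
    {a : Fin (d + 1) → ℤ} (h : ¬ JointlyNormal m B A κ ε H a) : Bad d m B A κ' ε H a := by
  by_contra hbad
  apply h
  intro n z k τ b hsys s L hn hsL
  have hHR : (1 : ℝ) ≤ H := by exact_mod_cast hH1
  have hHp : (0 : ℝ) < H := by linarith
  have hl2 : 0 < Real.log 2 := Real.log_pos (by norm_num)
  have hgood : ∀ (s : Fin n → ℕ) (L : ℕ), (∀ j, (s j : ℝ) + L ≤ A * Real.log H) →
      (∀ j, (H : ℝ) ^ κ' ≤ (b j : ℝ) ^ s j) →
      Disc b s L (fun j => part (τ j) (z j ^ k j)) (Real.log H ^ (1 / 2 + ε)) := by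
    intro s L h1 h2
    by_contra h3
    exact hbad ⟨n, z, k, τ, b, s, L, hsys.root, hsys.upper, hsys.im, hsys.exponent, hsys.base,
      hsys.indep, h2, h1, h3⟩
  have hb2 : ∀ j, (2 : ℝ) ≤ b j := fun j => by exact_mod_cast (hsys.base j).1
  have hE0 : 0 ≤ Real.log H ^ (1 / 2 + ε) := Real.rpow_nonneg (Real.log_nonneg hHR) _
  constructor
  · rw [disc_iff]
    set i0 : ℕ := ⌈κ' * Real.log H / Real.log 2⌉₊ with hi0
    have hi0H : (H : ℝ) ^ κ' ≤ 2 ^ i0 := by
      calc (H : ℝ) ^ κ' = 2 ^ (κ' * Real.log H / Real.log 2) := by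
            rw [Real.rpow_def_of_pos hHp, Real.rpow_def_of_pos (by norm_num)]
            congr 1
            field_simp
        _ ≤ 2 ^ ((i0 : ℕ) : ℝ) :=
            Real.rpow_le_rpow_of_exponent_le (by norm_num) (Nat.le_ceil _)
        _ = 2 ^ i0 := Real.rpow_natCast _ _
    set t : ℕ := min i0 L with ht
    have htL : t ≤ L := min_le_right _ _
    have hti : (t : ℝ) ≤ i0 := by exact_mod_cast min_le_left _ _
    have key : Disc b (fun j => s j + t) (L - t) (fun j => part (τ j) (z j ^ k j))
        (Real.log H ^ (1 / 2 + ε)) := by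
      rcases Nat.lt_or_ge i0 L with h1 | h1
      · have ht' : t = i0 := min_eq_left h1.le
        refine hgood _ _ (fun j => ?_) (fun j => ?_)
        · have := hsL j
          push_cast [Nat.cast_sub htL]
          linarith
        · rw [ht']
          refine hi0H.trans ?_
          calc (2 : ℝ) ^ i0 ≤ (b j : ℝ) ^ i0 := by
                gcongr
                exact hb2 j
            _ ≤ (b j : ℝ) ^ (s j + i0) :=
                pow_le_pow_right₀ (by linarith [hb2 j]) (Nat.le_add_left _ _)
      · have ht' : t = L := min_eq_right h1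
        rw [ht', Nat.sub_self]
        intro u _ _
        simp only [Finset.range_zero, Finset.filter_empty, Finset.card_empty, Nat.cast_zero,
          zero_mul, sub_zero, abs_zero]
        exact hE0
    have h2 := Disc_drop htL key
    intro u hu0 hu1
    refine (h2 u hu0 hu1).trans ?_
    linarith
  · intro hs
    rw [disc_iff]
    exact hgood s L hsL fun j => (Real.rpow_le_rpow_of_exponent_le hHR hκ').trans (hs j)

/-- Let `d ≥ 1`, `m`, `B`, `A`, `κ > 0` and `ε > 0` be given.

(1) For all integer polynomials `∑ a_i X ^ i` of degree at most `d` with all coefficients at most `H`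
in absolute value, except for at most `ζ H ^ (d + 1)` of them (`ζ > 0` arbitrary, `H ≥ H₀(ζ)`), all
systems of coordinates of the powers of the real and complex roots are jointly equidistributed
(`JointlyNormal`).

(2) Let `K` be a compact set of real polynomials of degree `d` with coefficients in `[-1, 1]` and without
multiple complex roots. For every `T` and all large `H`, the same is true for all integer polynomials
`P` of degree `d` with `P / H` in `K`, except for at most `H ^ (d + 1) (log H) ^ (-T)` of them. -/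
theorem result (d m B : ℕ) (hd : 1 ≤ d) (A κ ε : ℝ) (hκ : 0 < κ) (hε : 0 < ε) :
    (∀ ζ : ℝ, 0 < ζ → ∃ H₀ : ℕ, ∀ H : ℕ, H₀ ≤ H →
      (({a : Fin (d + 1) → ℤ | (∀ i, |a i| ≤ H) ∧ ¬ JointlyNormal m B A κ ε H a}.ncard : ℕ) : ℝ) ≤
        ζ * (H : ℝ) ^ (d + 1)) ∧
    (∀ K : Set (Fin (d + 1) → ℝ), IsCompact K →
      (∀ c ∈ K, (∀ i, |c i| ≤ 1) ∧ c (Fin.last d) ≠ 0 ∧
        ∀ z : ℂ, ∑ i, (c i : ℂ) * z ^ (i : ℕ) = 0 →
          ∑ i, (c i : ℂ) * ((i : ℕ) * z ^ ((i : ℕ) - 1)) ≠ 0) →
      ∀ T : ℝ, ∃ H₀ : ℕ, ∀ H : ℕ, H₀ ≤ H →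
        (({a : Fin (d + 1) → ℤ | (fun i => (a i : ℝ) / H) ∈ K ∧
          ¬ JointlyNormal m B A κ ε H a}.ncard : ℕ) : ℝ) ≤
          (H : ℝ) ^ (d + 1) * Real.log H ^ (-T)) := by
  -- it is enough to consider `ε ≤ 1 / 4`
  set ε' : ℝ := min ε (1 / 4) with hε'
  have hε'0 : 0 < ε' := lt_min hε (by norm_num)
  have hε'ε : ε' ≤ ε := min_le_left _ _
  have hε'4 : ε' ≤ 1 / 4 := min_le_right _ _
  have hl2 : 0 < Real.log 2 := Real.log_pos (by norm_num)
  set κ' : ℝ := min κ (ε' * Real.log 2 / 4) with hκ'
  have hκ'0 : 0 < κ' := lt_min hκ (by positivity)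
  have hκ'κ : κ' ≤ κ := min_le_left _ _
  have hκ'ε : κ' ≤ ε' * Real.log 2 / 4 := min_le_right _ _
  have hlogt : Tendsto (fun H : ℕ => Real.log (H : ℝ)) atTop atTop :=
    Real.tendsto_log_atTop.comp tendsto_natCast_atTop_atTop
  have hev : ∀ᶠ H : ℕ in atTop, 1 ≤ H ∧ 1 ≤ Real.log (H : ℝ) ∧
      ⌈κ' * Real.log H / Real.log 2⌉₊ + Real.log H ^ (1 / 2 + ε') ≤ ε' * Real.log H := by
    have e1 : ∀ᶠ Λ : ℝ in atTop, 4 / ε' ≤ Λ ^ (1 / 4 : ℝ) :=
      (tendsto_rpow_atTop (by norm_num)).eventually_ge_atTop _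
    filter_upwards [eventually_ge_atTop 1, hlogt.eventually_ge_atTop 1,
      hlogt.eventually_ge_atTop (4 / ε'), hlogt.eventually e1] with H h1 h2 h3 h4
    refine ⟨h1, h2, ?_⟩
    have hΛ0 : 0 < Real.log (H : ℝ) := by linarith
    have g1 : (⌈κ' * Real.log H / Real.log 2⌉₊ : ℝ) < κ' * Real.log H / Real.log 2 + 1 :=
      Nat.ceil_lt_add_one (by positivity)
    have g2 : κ' * Real.log H / Real.log 2 ≤ ε' / 4 * Real.log H := by
      rw [div_le_iff₀ hl2]
      calc κ' * Real.log H ≤ (ε' * Real.log 2 / 4) * Real.log H := by gcongr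
        _ = _ := by ring
    have g3 : 1 ≤ ε' / 4 * Real.log H := by
      rw [div_le_iff₀ hε'0] at h3
      linarith
    have g4 : Real.log H ^ (1 / 2 + ε') ≤ ε' / 4 * Real.log H := by
      calc Real.log H ^ (1 / 2 + ε') ≤ Real.log H ^ (3 / 4 : ℝ) :=
            Real.rpow_le_rpow_of_exponent_le h2 (by linarith)
        _ = 1 * Real.log H ^ (3 / 4 : ℝ) := (one_mul _).symm
        _ ≤ (ε' / 4 * Real.log H ^ (1 / 4 : ℝ)) * Real.log H ^ (3 / 4 : ℝ) := by
            gcongr
            rw [div_le_iff₀ hε'0] at h4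
            linarith
        _ = ε' / 4 * Real.log H := by
            rw [mul_assoc, ← Real.rpow_add hΛ0]
            norm_num
    have g5 : 0 ≤ ε' * Real.log H := by positivity
    linarith
  obtain ⟨H₁, hH₁⟩ := eventually_atTop.1 hev
  -- the reduction
  have hred : ∀ H : ℕ, H₁ ≤ H → ∀ a : Fin (d + 1) → ℤ, ¬ JointlyNormal m B A κ ε H a →
      Bad d m B A κ' ε' H a := by
    intro H hH a ha
    obtain ⟨g1, g2, g3⟩ := hH₁ H hH
    apply bad_of_not g1 hκ'κ g3
    intro hJ
    apply ha
    intro n z k τ b hsys s L hn hsL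
    obtain ⟨j1, j2⟩ := hJ n z k τ b hsys s L hn hsL
    refine ⟨fun t ht0 ht1 => (j1 t ht0 ht1).trans ?_, fun hs t ht0 ht1 =>
      (j2 hs t ht0 ht1).trans ?_⟩
    · gcongr
    · exact Real.rpow_le_rpow_of_exponent_le g2 (by linarith)
  refine ⟨?_, ?_⟩
  · intro ζ hζ
    obtain ⟨H₂, hH₂⟩ := eventually_atTop.1 (global hd m B A κ' ε' hκ'0 hε'0 ζ hζ)
    refine ⟨max H₁ H₂, fun H hH => ?_⟩
    refine le_trans ?_ (hH₂ H (le_of_max_le_right hH))
    have hfin : {a : Fin (d + 1) → ℤ | (∀ i, |a i| ≤ H) ∧ Bad d m B A κ' ε' H a}.Finite :=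
      (Pool.Agent.Q270.AA.cube_finite d H).subset fun a ha => ha.1
    have hsub : {a : Fin (d + 1) → ℤ | (∀ i, |a i| ≤ H) ∧ ¬ JointlyNormal m B A κ ε H a} ⊆
        {a : Fin (d + 1) → ℤ | (∀ i, |a i| ≤ H) ∧ Bad d m B A κ' ε' H a} := fun a ha =>
      ⟨ha.1, hred H (le_of_max_le_left hH) a ha.2⟩
    exact_mod_cast Set.ncard_le_ncard hsub hfin
  · intro K hK hKn T
    have hKC : K ⊆ Pool.Agent.Q270.AA.Cu d := fun c hc => (hKn c hc).1
    have hKZ : ∀ c ∈ K, c ∉ Zc d := by
      rintro c hc ⟨-, h | ⟨z, h1, h2⟩⟩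
      · exact (hKn c hc).2.1 h
      · exact (hKn c hc).2.2 z h1 h2
    obtain ⟨H₂, hH₂⟩ := eventually_atTop.1
      (compact_rate hd hK hKC hKZ m B A κ' ε' T hκ'0 hε'0)
    refine ⟨max H₁ H₂, fun H hH => ?_⟩
    refine le_trans ?_ (hH₂ H (le_of_max_le_right hH))
    have hHp : (0 : ℝ) < H := by
      have := (hH₁ H (le_of_max_le_left hH)).1
      exact_mod_cast this
    have hfin : {a : Fin (d + 1) → ℤ | (fun i => (a i : ℝ) / H) ∈ K ∧
        Bad d m B A κ' ε' H a}.Finite :=
      (scaled_finite H hHp hK.isBounded).subset fun a ha => ha.1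
    have hsub : {a : Fin (d + 1) → ℤ | (fun i => (a i : ℝ) / H) ∈ K ∧
          ¬ JointlyNormal m B A κ ε H a} ⊆
        {a : Fin (d + 1) → ℤ | (fun i => (a i : ℝ) / H) ∈ K ∧ Bad d m B A κ' ε' H a} :=
      fun a ha => ⟨ha.1, hred H (le_of_max_le_left hH) a ha.2⟩
    exact_mod_cast Set.ncard_le_ncard hsub hfin

end Pool.Agent.Results.MP_c8ecb2_nt.AllRoots
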