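import Mathlib
import Pool.Agent.Q204.NN.Sharp

/-!
# Joint normality of the translates `x + j / s ^ n` of a vector

Let `d`, `B` and `s ≥ 2` be given. There is a constant `C` such that for every real vector `x` with
`d` entries, every `n` and every `N ≥ s ^ n` all but at most `C s ^ (n (d - 1)) / ε ^ (9 d + 5)` of the
`s ^ (n d)` vectors `x + j / s ^ n`, `0 ≤ j_i < s ^ n`, are jointly `ε`-normal up to `N`, for all
choices of bases `b_i ≤ B` coprime to `s`. For a single base the exceptional vectors lie in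
boundedly many cosets of hyperplanes modulo `s ^ n`. The order `s ^ (n (d - 1))` is the right one even
for algebraic vectors `x` whose entries are linearly independent over `ℚ` together with `1`.

Adding a rational vector does not change normality of the tuple, so each of these vectors is
normal in base `b` if and only if `x` is.
-/

set_option autoImplicit false

open Finset Filter

namespace Pool.Agent.Results.MP_c8ecb2_nt.RationalVectors

variable {d : ℕ}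

/-- number of the `m < N` such that `α_i ≤ {b_i ^ (t_i + m) y_i} < β_i` for all `i` -/
noncomputable def visits (b t : Fin d → ℕ) (y α β : Fin d → ℝ) (N : ℕ) : ℕ :=
  {m : ℕ | m < N ∧ ∀ i, α i ≤ Int.fract ((b i : ℝ) ^ (t i + m) * y i) ∧
    Int.fract ((b i : ℝ) ^ (t i + m) * y i) < β i}.ncard

/-- jointly `ε`-normal up to `N` (in the bases `b_i`, with the starting places `t_i`) -/
def Good (b t : Fin d → ℕ) (ε : ℝ) (N : ℕ) (y : Fin d → ℝ) : Prop :=
  ∀ α β : Fin d → ℝ, (∀ i, 0 ≤ α i) → (∀ i, α i ≤ β i) → (∀ i, β i ≤ 1) →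
    |(visits b t y α β N : ℝ) - (∏ i, (β i - α i)) * N| ≤ ε * N

/-- the digit matrix whose `i`-th row is the word of the `l` digits of `W_i` in base `b_i` stands in
`y` at the place `m` (row `i` at the place `t_i + m`) -/
def Stands (b t : Fin d → ℕ) (l : ℕ) (W : Fin d → ℕ) (y : Fin d → ℝ) (m : ℕ) : Prop :=
  ∀ i, (W i : ℝ) / (b i : ℝ) ^ l ≤ Int.fract ((b i : ℝ) ^ (t i + m) * y i) ∧
    Int.fract ((b i : ℝ) ^ (t i + m) * y i) < ((W i : ℝ) + 1) / (b i : ℝ) ^ l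

/-- bases between `2` and `B`, coprime to `s`; they may be all equal -/
def Bases (B s : ℕ) (b : Fin d → ℕ) : Prop := ∀ i, 2 ≤ b i ∧ b i ≤ B ∧ (b i).Coprime s

/-- mean over `m < N` of the exponential of `2 π i ∑ h_i b_i ^ (t_i + m) y_i` -/
noncomputable def weyl (b t : Fin d → ℕ) (h : Fin d → ℤ) (N : ℕ) (y : Fin d → ℝ) : ℂ :=
  (∑ m ∈ range N, Complex.exp (2 * Real.pi * Complex.I *
    ((∑ i, h i * ((b i : ℝ) ^ (t i + m) * y i) : ℝ) : ℂ))) / N

/-- the translate `x + j / s ^ n` -/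
noncomputable def tr (x : Fin d → ℝ) (s n : ℕ) (j : Fin d → ℕ) : Fin d → ℝ :=
  fun i => x i + (j i : ℝ) / (s : ℝ) ^ n

lemma weyl_eq (b t : Fin d → ℕ) (h : Fin d → ℤ) (N : ℕ) (y : Fin d → ℝ) :
    weyl b t h N y = Pool.Agent.Q204.NN.WW b t h N y / N := by
  unfold weyl Pool.Agent.Q204.NN.WW Pool.Agent.H332R2.Lit.e
  congr 1
  refine sum_congr rfl fun m _ => ?_
  congr 1
  ring

lemma good_iff (b t : Fin d → ℕ) (ε : ℝ) (N : ℕ) (y : Fin d → ℝ) :
    Good b t ε N y ↔ Pool.Agent.Q204.NN.JN b t ε N y := Iff.rfl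

/-- **Translates by rational vectors.** -/
theorem result (d B s : ℕ) (hd : 1 ≤ d) (hs : 2 ≤ s) : ∃ C : ℝ, 0 < C ∧
    (∀ (x : Fin d → ℝ) (t : Fin d → ℕ) (n N : ℕ), s ^ n ≤ N →
      -- (1) mean squares of the joint exponential sums over the translates
      (∀ b : Fin d → ℕ, Bases B s b → ∀ (h : Fin d → ℤ) (i : Fin d), h i ≠ 0 →
        ∑ j ∈ Fintype.piFinset (fun _ : Fin d => range (s ^ n)), ‖weyl b t h N (tr x s n j)‖ ^ 2 ≤
          C * |(h i : ℝ)| * (s : ℝ) ^ (n * (d - 1))) ∧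
      -- (2) number of the translates which are not jointly `ε`-normal up to `N`
      (∀ ε : ℝ, 0 < ε → ε ≤ 1 →
        ({j : Fin d → ℕ | (∀ i, j i < s ^ n) ∧
          ¬ ∀ b : Fin d → ℕ, Bases B s b → Good b t ε N (tr x s n j)}.ncard : ℝ) ≤
          C * (s : ℝ) ^ (n * (d - 1)) / ε ^ (9 * d + 5)) ∧
      -- (3) one base: the exceptions lie in boundedly many cosets of hyperplanes
      (∀ b : ℕ, 2 ≤ b → b ≤ B → b.Coprime s → ∀ ε : ℝ, 0 < ε → ε ≤ 1 →
        ∃ P : Finset ((Fin d → ℤ) × ℕ), (P.card : ℝ) ≤ C / ε ^ (9 * d + 2) ∧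
          (∀ p ∈ P, p.1 ≠ 0 ∧ ∀ i, |(p.1 i : ℝ)| ≤ C / ε ^ 3) ∧
          ∀ j : Fin d → ℕ, ¬ Good (fun _ => b) t ε N (tr x s n j) →
            ∃ p ∈ P, ((s : ℤ) ^ n) ∣ (∑ i, p.1 i * (b : ℤ) ^ t i * j i) - p.2)) ∧
    -- (4) digit matrices which stand at finitely many places only
    (∀ (x : Fin d → ℝ) (t : Fin d → ℕ) (n l : ℕ),
      ({j : Fin d → ℕ | (∀ i, j i < s ^ n) ∧ ∃ b : Fin d → ℕ, Bases B s b ∧
        ∃ W : Fin d → ℕ, (∀ i, W i < b i ^ l) ∧
          ¬ ∃ᶠ m : ℕ in atTop, Stands b t l W (tr x s n j) m}.ncard : ℝ) ≤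
        C * (B : ℝ) ^ (d * l * (9 * d + 5)) * (s : ℝ) ^ (n * (d - 1))) ∧
    -- (5) the order of magnitude in (2) is the right one for independent algebraic tuples
    (∀ (b t : Fin d → ℕ) (N : ℕ), (∀ i, 2 ≤ b i) → 1 ≤ N →
      ∃ x : Fin d → ℝ, (∀ i, IsAlgebraic ℚ (x i)) ∧
        LinearIndependent ℚ (Fin.cons 1 x : Fin (d + 1) → ℝ) ∧
        ∀ (n : ℕ) (ε : ℝ), ε < 1 / 2 →
          s ^ (n * (d - 1)) ≤
            {j : Fin d → ℕ | (∀ i, j i < s ^ n) ∧ ¬ Good b t ε N (tr x s n j)}.ncard) := by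
  classical
  set K : ℝ := ∑ b ∈ range (B + 1), (Pool.Agent.Q77.Cos.kap b s : ℝ) with hK
  have hK0 : 0 ≤ K := Finset.sum_nonneg fun b _ => Nat.cast_nonneg _
  have hdR : (1 : ℝ) ≤ d := by exact_mod_cast hd
  have hd0 : (0 : ℝ) < d := by linarith
  set C0 : ℝ := (B : ℝ) ^ d * (2 ^ (d + 3) * (9 * d) ^ (9 * d + 3) * K) with hC0
  have hC00 : 0 ≤ C0 := by rw [hC0]; positivity
  set C : ℝ := 2 ^ (9 * d + 5) * C0 + 2 * K + (9 * d) ^ 3 + 1 with hC
  have hCpos : 0 < C := by rw [hC]; positivity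
  have h2d : (1 : ℝ) ≤ 2 ^ (9 * d + 5) := one_le_pow₀ (by norm_num)
  have hC0C : C0 ≤ C := by
    have h1 : 1 * C0 ≤ 2 ^ (9 * d + 5) * C0 := by gcongr
    have h2 : (0 : ℝ) ≤ (9 * d) ^ 3 := by positivity
    rw [hC]
    linarith
  have h2KC : 2 * K ≤ C := by
    have h1 : 0 ≤ 2 ^ (9 * d + 5) * C0 := by positivity
    have h2 : (0 : ℝ) ≤ (9 * d) ^ 3 := by positivity
    rw [hC]
    linarith
  have h9C : (9 * (d : ℝ)) ^ 3 ≤ C := by
    have h1 : 0 ≤ 2 ^ (9 * d + 5) * C0 := by positivity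
    rw [hC]
    linarith
  have hkK : ∀ b : ℕ, b ≤ B → (Pool.Agent.Q77.Cos.kap b s : ℝ) ≤ K := fun b hb => by
    rw [hK]
    exact Finset.single_le_sum (f := fun b => (Pool.Agent.Q77.Cos.kap b s : ℝ))
      (fun b _ => Nat.cast_nonneg _) (mem_range.2 (by omega))
  have h2' : ∀ (x : Fin d → ℝ) (t : Fin d → ℕ) (n N : ℕ), s ^ n ≤ N → ∀ ε : ℝ, 0 < ε → ε ≤ 1 →
      ({j : Fin d → ℕ | (∀ i, j i < s ^ n) ∧
          ¬ ∀ b : Fin d → ℕ, Bases B s b → Good b t ε N (tr x s n j)}.ncard : ℝ) ≤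
          C0 * (s : ℝ) ^ (n * (d - 1)) / ε ^ (9 * d + 5) := by
    intro x t n N hN ε hε hε1
    have h1 := Pool.Agent.Q204.NN.bad_bases hd B s t (by omega) n N hN ε hε hε1 x
    rw [← hK, ← hC0] at h1
    rw [pow_mul]
    exact h1
  refine ⟨C, hCpos, fun x t n N hN => ⟨?_, ?_, ?_⟩, ?_, ?_⟩
  · intro b hb h i hh
    obtain ⟨hb1, hb2, hb3⟩ := hb i
    have h1 := Pool.Agent.Q204.NN.moment_d b t s (by omega) n N hN h i hb1 hb3 hh x
    have hNpos : 0 < N := lt_of_lt_of_le (Nat.pow_pos (by omega)) hN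
    have hN0 : (0 : ℝ) < N := by exact_mod_cast hNpos
    have h2 : ∑ j ∈ Fintype.piFinset (fun _ : Fin d => range (s ^ n)),
        ‖weyl b t h N (tr x s n j)‖ ^ 2 =
        (∑ j ∈ Fintype.piFinset (fun _ : Fin d => range (s ^ n)),
          ‖Pool.Agent.Q204.NN.WW b t h N (fun i => x i + (j i : ℝ) / (s : ℝ) ^ n)‖ ^ 2) /
          (N : ℝ) ^ 2 := by
      rw [sum_div]
      refine sum_congr rfl fun k _ => ?_
      rw [weyl_eq, norm_div, div_pow, Complex.norm_natCast]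
      rfl
    rw [h2, div_le_iff₀ (by positivity)]
    refine h1.trans ?_
    have h3 := hkK (b i) hb2
    rw [pow_mul]
    have h4 : 2 * (Pool.Agent.Q77.Cos.kap (b i) s : ℝ) ≤ C := by linarith
    gcongr
  · intro ε hε hε1
    refine (h2' x t n N hN ε hε hε1).trans ?_
    gcongr
  · intro b hb1 hb2 hb3 ε hε hε1
    obtain ⟨P, hP1, hP2, hP3⟩ := Pool.Agent.Q204.NN.planes hd b t s (by omega) hb1 hb3 n N hN ε hε
      hε1 x
    refine ⟨P, hP1.trans ?_, fun p hp => ⟨(hP2 p hp).1, fun i => ((hP2 p hp).2 i).trans ?_⟩, hP3⟩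
    · apply div_le_div_of_nonneg_right _ (by positivity)
      refine le_trans ?_ hC0C
      have hB1 : (1 : ℝ) ≤ (B : ℝ) ^ d := one_le_pow₀ (by exact_mod_cast (by omega : 1 ≤ B))
      have h3 := hkK b hb2
      have h9 : (1 : ℝ) ≤ 9 * d := by linarith
      calc 2 ^ (d + 3) * (9 * (d : ℝ)) ^ (9 * d) * (Pool.Agent.Q77.Cos.kap b s : ℝ)
          ≤ 2 ^ (d + 3) * (9 * (d : ℝ)) ^ (9 * d + 3) * K := by
            gcongr
            · omega
        _ = 1 * (2 ^ (d + 3) * (9 * (d : ℝ)) ^ (9 * d + 3) * K) := (one_mul _).symm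
        _ ≤ C0 := by rw [hC0]; gcongr
    · rw [div_pow]
      gcongr
  · intro x t n l
    set S4 : Set (Fin d → ℕ) := {j : Fin d → ℕ | (∀ i, j i < s ^ n) ∧ ∃ b : Fin d → ℕ,
        Bases B s b ∧ ∃ W : Fin d → ℕ, (∀ i, W i < b i ^ l) ∧
          ¬ ∃ᶠ m : ℕ in atTop, Stands b t l W (tr x s n j) m} with hS4
    have hfin : S4.Finite := by
      apply Set.Finite.subset (Finset.finite_toSet (Fintype.piFinset fun _ : Fin d => range (s ^ n)))
      rintro j ⟨hj, _⟩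
      rw [mem_coe, Fintype.mem_piFinset]
      exact fun i => mem_range.2 (hj i)
    rcases S4.eq_empty_or_nonempty with he | ⟨j0, hj0⟩
    · rw [he, Set.ncard_empty]
      push_cast
      positivity
    obtain ⟨-, b0, hb0, -⟩ := hj0
    have hB2 : 2 ≤ B := (hb0 ⟨0, hd⟩).1.trans (hb0 ⟨0, hd⟩).2.1
    have hBR : (1 : ℝ) ≤ B := by exact_mod_cast (by omega : 1 ≤ B)
    have hBp : (1 : ℝ) ≤ (B : ℝ) ^ (d * l) := one_le_pow₀ hBR
    set ε : ℝ := 1 / (2 * (B : ℝ) ^ (d * l)) with hε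
    have hε0 : 0 < ε := by rw [hε]; positivity
    have hε1 : ε ≤ 1 := by
      rw [hε, div_le_one (by positivity)]
      linarith
    have hm0 : ∀ j : Fin d → ℕ, ∃ m0 : ℕ, j ∈ S4 → ∃ b : Fin d → ℕ, Bases B s b ∧
        ∃ W : Fin d → ℕ, (∀ i, W i < b i ^ l) ∧ ∀ m, m0 ≤ m → ¬ Stands b t l W (tr x s n j) m := by
      intro j
      by_cases hj : j ∈ S4
      · obtain ⟨-, b, hb, W, hW, hf⟩ := hj
        rw [not_frequently] at hf
        obtain ⟨m0, hm0⟩ := eventually_atTop.1 hf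
        exact ⟨m0, fun _ => ⟨b, hb, W, hW, hm0⟩⟩
      · exact ⟨0, fun h => absurd h hj⟩
    choose m0 hm0 using hm0
    set N1 : ℕ := ∑ j ∈ hfin.toFinset, m0 j with hN1
    obtain ⟨N2, hN2⟩ := exists_nat_gt (2 * (B : ℝ) ^ (d * l) * N1)
    set N : ℕ := max (s ^ n) N2 with hN
    have hsub : S4 ⊆ {j : Fin d → ℕ | (∀ i, j i < s ^ n) ∧
          ¬ ∀ b : Fin d → ℕ, Bases B s b → Good b t ε N (tr x s n j)} := by
      intro j hj
      refine ⟨hj.1, fun hgood => ?_⟩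
      obtain ⟨b, hb, W, hW, hm⟩ := hm0 j hj
      have h1 := Pool.Agent.Q204.NN.matrix_bad b t B l (fun i => ⟨(hb i).1, (hb i).2.1⟩) W hW
        (tr x s n j) (m0 j) hm N (hgood b hb) (by omega)
      have h2 : m0 j ≤ N1 := Finset.single_le_sum (f := m0) (fun _ _ => Nat.zero_le _)
        (hfin.mem_toFinset.2 hj)
      have h3 : (m0 j : ℝ) ≤ N1 := by exact_mod_cast h2
      have h4 : (N2 : ℝ) ≤ N := by exact_mod_cast le_max_right _ _
      have h5 : 2 * (B : ℝ) ^ (d * l) * m0 j ≤ 2 * (B : ℝ) ^ (d * l) * N1 := by gcongr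
      linarith
    have hfin2 : {j : Fin d → ℕ | (∀ i, j i < s ^ n) ∧
          ¬ ∀ b : Fin d → ℕ, Bases B s b → Good b t ε N (tr x s n j)}.Finite := by
      apply Set.Finite.subset (Finset.finite_toSet (Fintype.piFinset fun _ : Fin d => range (s ^ n)))
      rintro j ⟨hj, _⟩
      rw [mem_coe, Fintype.mem_piFinset]
      exact fun i => mem_range.2 (hj i)
    have h1 : (S4.ncard : ℝ) ≤ ({j : Fin d → ℕ | (∀ i, j i < s ^ n) ∧
          ¬ ∀ b : Fin d → ℕ, Bases B s b → Good b t ε N (tr x s n j)}.ncard : ℝ) := by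
      exact_mod_cast Set.ncard_le_ncard hsub hfin2
    refine h1.trans ((h2' x t n N (le_max_left _ _) ε hε0 hε1).trans ?_)
    have h3 : C0 * (s : ℝ) ^ (n * (d - 1)) / ε ^ (9 * d + 5) =
        (2 ^ (9 * d + 5) * C0) * (B : ℝ) ^ (d * l * (9 * d + 5)) * (s : ℝ) ^ (n * (d - 1)) := by
      rw [hε, one_div, inv_pow, div_inv_eq_mul, mul_pow, ← pow_mul]
      ring
    rw [h3]
    have h4 : 2 ^ (9 * d + 5) * C0 ≤ C := by
      have h2 : (0 : ℝ) ≤ (9 * d) ^ 3 := by positivity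
      rw [hC]
      linarith
    gcongr
  · intro b t N hb hN
    obtain ⟨x, hx1, hx2, hx3⟩ := Pool.Agent.Q204.NN.many_bad hd b t hb N hN
    refine ⟨x, hx1, hx2, fun n ε hε => ?_⟩
    rw [pow_mul]
    exact hx3 s n ε (by omega) hε

end Pool.Agent.Results.MP_c8ecb2_nt.RationalVectors
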