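import Pool.Agent.Q270.SP.Tup2

/-!
# Tuples of roots of integers and of prime numbers are jointly normal up to `A log N` digits

For every prime number `p` the numbers `1, p ^ (1/L), …, p ^ ((L-1)/L)` are linearly independent over
the rational numbers, so that the tuples `(p ^ (1/L), …, p ^ ((L-1)/L))`, for instance
`(∛p, ∛(p²))` or `(√p, ∜p)`, are among those of the question. It is proved that almost all of them, up
to a proportion `N ^ (-c)` of the primes `p ≤ N`, have all digit matrices with the right frequency in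
all windows of their first `A log N` digits, for every `A`, and that the number of occurrences of a
digit matrix obeys the central limit theorem.

More generally the vectors with the entries `ω_j m ^ θ_j + P_j(m)` are considered, where the `θ_j > 0`
are distinct real numbers, none of them an integer, uniformly in the real numbers `ω_j`,
`1 ≤ |ω_j| ≤ N ^ W`, and in the real polynomials `P_j` of degree at most `d`. Here `m` runs through all
integers up to `N` or through the primes up to `N` of a residue class.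

Proof. The exponential sums with the phase `∑ f_j m ^ θ_j + P(m)` save a power of `N`, for all
`f_j` up to any power of `N`, as long as one of them is at least `1`: by the invertibility of the
matrix of the falling factorials, at every point one of `r` consecutive derivatives of the
phase has the right size, and the test of van der Corput applies on pieces of the interval. For
the primes the identity of Vaughan leads to sums of the same kind.
-/

set_option autoImplicit false

namespace Pool.Agent.Results.MP_c8ecb2_nt.RootTuples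

open Filter Topology MeasureTheory ProbabilityTheory

/-- the primes `p ≤ N` which are congruent to `a` modulo `q` -/
def Primes (a q N : ℕ) : Set ℕ := {p | p.Prime ∧ p ≡ a [MOD q] ∧ p ≤ N}

/-- the integers `1, …, N` -/
def Ints (N : ℕ) : Set ℕ := {m | 1 ≤ m ∧ m ≤ N}

/-- the index sets: all integers, or the primes of a reduced residue class, up to `N` -/
def Index (I : ℕ → Set ℕ) : Prop := I = Ints ∨ ∃ a q : ℕ, 1 ≤ q ∧ a.Coprime q ∧ I = Primes a q

/-- the vector with the entries `ω_j m ^ θ_j + P_j(m)` -/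
noncomputable def vec {r : ℕ} (θ ω : Fin r → ℝ) (P : Fin r → Polynomial ℝ) (m : ℕ) : Fin r → ℝ :=
  fun j => ω j * (m : ℝ) ^ θ j + (P j).eval (m : ℝ)

/-- the word of the `k` digits in base `b` of `y` which follow the first `n` digits after the point,
read as an integer between `0` and `b ^ k - 1` -/
noncomputable def word (b k n : ℕ) (y : ℝ) : ℕ :=
  ⌊(b : ℝ) ^ k * Int.fract ((b : ℝ) ^ n * y)⌋₊

/-- For all bases `2 ≤ b_j ≤ B`, all `r × k` digit matrices, `k ≤ w`, with the rows `D_j < b_j ^ k`, all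
starting places `s_j` and all `L` with `s_j + L ≤ T`, the number of the `i < L` such that for every `j`
the word of `k` digits in base `b_j` of `z_j` after the place `s_j + i` is `D_j` differs from
`L / ∏ b_j ^ k` by at most `E`. -/
def NormalUpTo {r : ℕ} (B w : ℕ) (T E : ℝ) (z : Fin r → ℝ) : Prop :=
  ∀ b : Fin r → ℕ, (∀ j, 2 ≤ b j ∧ b j ≤ B) → ∀ (k : ℕ) (D s : Fin r → ℕ) (L : ℕ), 1 ≤ k → k ≤ w →
    (∀ j, D j < b j ^ k) → (∀ j, (s j : ℝ) + L ≤ T) →
    |(({i : ℕ | i < L ∧ ∀ j, word (b j) k (s j + i) (z j) = D j}.ncard : ℕ) : ℝ) -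
      L / ∏ j, (b j : ℝ) ^ k| ≤ E

/-- the mean of `F` over the tuples of words of `w` digits, in base `b_j` for the index `j` -/
noncomputable def mean {r : ℕ} (b : Fin r → ℕ) (w : ℕ) (F : (Fin r → ℕ) → ℝ) : ℝ :=
  (∑ c ∈ Fintype.piFinset fun j => Finset.range (b j ^ w), F c) / ((∏ j, b j : ℕ) : ℝ) ^ w

/-- the covariance of the values of `F` at two tuples of words of random digits at the distance `h` -/
noncomputable def cov {r : ℕ} (b : Fin r → ℕ) (w : ℕ) (F : (Fin r → ℕ) → ℝ) (h : ℕ) : ℝ :=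
  (∑ c ∈ Fintype.piFinset fun j => Finset.range (b j ^ (w + h)),
    (F (fun j => c j / b j ^ h) - mean b w F) * (F (fun j => c j % b j ^ w) - mean b w F)) /
    ((∏ j, b j : ℕ) : ℝ) ^ (w + h)

/-- the asymptotic variance of the sums of `F` over the tuples of words of `w` digits -/
noncomputable def variance {r : ℕ} (b : Fin r → ℕ) (w : ℕ) (F : (Fin r → ℕ) → ℝ) : ℝ :=
  cov b w F 0 + 2 * ∑ h ∈ Finset.Ico 1 w, cov b w F h

/-- the finite index sets -/
lemma Index_fin {I : ℕ → Set ℕ} (hI : Index I) {r d : ℕ} {θ : Fin r → ℝ} (hθ0 : ∀ j, 0 < θ j)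
    (hθ : ∀ j, ∀ m : ℕ, θ j ≠ m) (hinj : Function.Injective θ) : ∃ J : ℕ → Finset ℕ,
    (∀ N, I N = ((J N : Finset ℕ) : Set ℕ)) ∧
    (∀ ι : ℝ, 0 < ι → ∀ᶠ N : ℕ in atTop, (N : ℝ) ^ (1 - ι) ≤ ((J N).card : ℝ)) ∧
    (∀ A : ℝ, 0 ≤ A → ∃ τ : ℝ, 0 < τ ∧ ∃ x₀ : ℕ, ∀ X : ℕ, x₀ ≤ X →
      ∀ f : Fin r → ℝ, (∃ j, 1 ≤ |f j|) → (∀ j, |f j| ≤ (X : ℝ) ^ A) → ∀ Q : Polynomial ℝ,
      Q.natDegree ≤ d → ‖∑ p ∈ J X, Pool.Agent.H469R2.NK.e (Pool.Agent.Q270.SP.Fp θ f Q p)‖ ≤
        (X : ℝ) ^ (1 - τ)) := by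
  rcases hI with rfl | ⟨a, q, hq, haq, rfl⟩
  · refine ⟨fun N => Finset.Ioc 0 N, fun N => ?_, fun ι hι => ?_, fun A hA => ?_⟩
    · ext m
      simp only [Ints, Set.mem_ofPred_eq, Finset.coe_Ioc, Set.mem_Ioc]
      omega
    · filter_upwards [eventually_ge_atTop 1] with N hN
      have hN1 : (1 : ℝ) ≤ N := by exact_mod_cast hN
      rw [Nat.card_Ioc, Nat.sub_zero]
      calc (N : ℝ) ^ (1 - ι) ≤ (N : ℝ) ^ (1 : ℝ) :=
            Real.rpow_le_rpow_of_exponent_le hN1 (by linarith)
        _ = N := Real.rpow_one _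
    · obtain ⟨τ, hτ, _, x₀, h⟩ := Pool.Agent.Q270.SP.int_sum (d := d) hθ0 hθ hinj A hA
      exact ⟨τ, hτ, x₀, h⟩
  · refine ⟨Pool.Agent.Q270.SP.PrA a q, fun N => ?_, fun ι hι => ?_, fun A hA => ?_⟩
    · ext p
      simp only [Primes, Pool.Agent.Q270.SP.PrA, Set.mem_ofPred_eq, Finset.coe_filter,
        Finset.mem_Ioc]
      constructor
      · rintro ⟨h1, h2, h3⟩
        exact ⟨⟨h1.pos, h3⟩, h1, h2⟩
      · rintro ⟨⟨_, h3⟩, h1, h2⟩
        exact ⟨h1, h2, h3⟩
    · exact Pool.Agent.Q270.SP.PrA_many a q hq haq ι hι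
    · obtain ⟨τ, hτ, _, x₀, h⟩ := Pool.Agent.Q270.SP.class_sum (d := d) hθ0 hθ hinj A hA
      exact ⟨τ, hτ, x₀, fun X hX f h1 h2 Q hQ => h X hX f h1 h2 Q hQ a q hq⟩

open Classical in
lemma ncard_eq {S : Set ℕ} {T : Finset ℕ} (h : S = ((T : Finset ℕ) : Set ℕ)) (p : ℕ → Prop) :
    ({m ∈ S | p m}.ncard : ℕ) = (T.filter p).card := by
  have h1 : {m ∈ S | p m} = ((T.filter p : Finset ℕ) : Set ℕ) := by
    rw [Finset.coe_filter, h]
    rfl
  rw [h1, Set.ncard_coe_finset]

lemma cnt_eq {r : ℕ} (b : Fin r → ℕ) (k : ℕ) (s D : Fin r → ℕ) (L : ℕ) (z : Fin r → ℝ) :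
    {i : ℕ | i < L ∧ ∀ j, word (b j) k (s j + i) (z j) = D j}.ncard =
    ((Finset.range L).filter
      (fun i => Pool.Agent.Y951.TU.tw b k (fun j => s j + i) z = D)).card := by
  have h2 : {i : ℕ | i < L ∧ ∀ j, word (b j) k (s j + i) (z j) = D j} =
      (((Finset.range L).filter
        (fun i => Pool.Agent.Y951.TU.tw b k (fun j => s j + i) z = D) : Finset ℕ) : Set ℕ) := by
    ext i
    simp only [Set.mem_ofPred_eq, Finset.coe_filter, Finset.mem_range, funext_iff]
    rfl
  rw [h2, Set.ncard_coe_finset]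

open Classical in
/-- (0) For every prime number `p` and `L ≥ 2` the numbers `p ^ (j / L)`, `1 ≤ j < L`, are algebraic,
and together with `1` they are linearly independent over `ℚ`.

Let `θ_1, …, θ_r > 0` be distinct real numbers, none of them an integer, `r ≥ 1` (for example
`1/L, …, (L-1)/L`). Let `I_N` be the set of all integers `1, …, N` or the set of the primes `p ≤ N` of a
reduced residue class, and let `d`, `W` and `A` be given. The vectors `x_m` with the entries
`ω_j m ^ θ_j + P_j(m)`, `m ∈ I_N`, are considered, for all real numbers `ω_j` with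
`1 ≤ |ω_j| ≤ N ^ W` and all real polynomials `P_j` of degree at most `d`.

(1) For all `B`, `w` and `ε > 0` there is `c > 0` such that for large `N`, uniformly in the `ω_j` and
`P_j`, all but a proportion `N ^ (-c)` of the `m ∈ I_N` are such that `x_m` satisfies
`NormalUpTo B w (A log N) (ε log N)`: all digit matrices with at most `w` columns, in all bases
`b_j ≤ B`, have the right frequency in all windows of the first `A log N` digits.

(2) Let `b_j, w ≥ 1` and let `F` be a function of the tuples of words of `w` digits in the bases `b_j`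
with a positive asymptotic variance (for instance the indicator function of a digit column, if not
all `b_j` are `1`). If `L_N → ∞` and `s_{N,j} + L_N ≤ A log N` for all `j`, then the proportion of
the `m ∈ I_N` for which the sum of `F` over the tuples of words of `x_m` after the places `s_{N,j} + i`,
`i < L_N`, is at most `L_N mean + t √(variance L_N)` tends to the value at `t` of the distribution
function of the standard normal distribution. The `ω_j` and `P_j` may depend on `N`. -/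
theorem result :
    (∀ p L : ℕ, p.Prime → 2 ≤ L → (∀ j : ℕ, IsAlgebraic ℚ ((p : ℝ) ^ ((j : ℝ) / L))) ∧
      LinearIndependent ℚ (fun j : Fin L => (p : ℝ) ^ ((j : ℝ) / L))) ∧
    (∀ (r : ℕ) (θ : Fin r → ℝ), 1 ≤ r → (∀ j, 0 < θ j) → (∀ j, ∀ m : ℕ, θ j ≠ m) →
      Function.Injective θ → ∀ I : ℕ → Set ℕ, Index I → ∀ (d : ℕ) (W A : ℝ),
      (∀ (B w : ℕ) (ε : ℝ), 0 < ε → ∃ c : ℝ, 0 < c ∧ ∃ N₀ : ℕ, ∀ N : ℕ, N₀ ≤ N →
        ∀ (ω : Fin r → ℝ) (P : Fin r → Polynomial ℝ),
        (∀ j, 1 ≤ |ω j| ∧ |ω j| ≤ (N : ℝ) ^ W ∧ (P j).natDegree ≤ d) →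
        (({m ∈ I N | ¬ NormalUpTo B w (A * Real.log N) (ε * Real.log N)
            (vec θ ω P m)}.ncard : ℕ) : ℝ) ≤ (N : ℝ) ^ (-c) * ((I N).ncard : ℝ)) ∧
      (∀ (b : Fin r → ℕ) (w : ℕ) (F : (Fin r → ℕ) → ℝ), (∀ j, 1 ≤ b j) → 1 ≤ w →
        0 < variance b w F →
        ∀ (ω : ℕ → Fin r → ℝ) (P : ℕ → Fin r → Polynomial ℝ) (s : ℕ → Fin r → ℕ) (L : ℕ → ℕ),
        (∀ᶠ N : ℕ in atTop, ∀ j, 1 ≤ |ω N j| ∧ |ω N j| ≤ (N : ℝ) ^ W ∧ (P N j).natDegree ≤ d) →
        Tendsto L atTop atTop →
        (∀ᶠ N : ℕ in atTop, ∀ j, (s N j : ℝ) + L N ≤ A * Real.log N) → ∀ t : ℝ,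
        Tendsto (fun N : ℕ => (({m ∈ I N |
            ∑ i ∈ Finset.range (L N), F (fun j => word (b j) w (s N j + i)
              (vec θ (ω N) (P N) m j)) ≤
              L N * mean b w F + t * √(variance b w F * L N)}.ncard : ℕ) : ℝ) /
            ((I N).ncard : ℝ)) atTop (𝓝 ((gaussianReal 0 1).real (Set.Iic t))))) := by
  refine ⟨fun p L hp hL => ⟨fun j => Pool.Agent.Q270.SP.roots_alg p L j (by omega),
    Pool.Agent.Q270.SP.roots_indep p L hp (by omega)⟩, ?_⟩
  intro r θ hr hθ0 hθ hinj I hI d W A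
  obtain ⟨J, hJ, hJcard, hJsum⟩ := Index_fin hI (d := d) hθ0 hθ hinj
  have hgood := Pool.Agent.Q270.SP.good_V W J hJcard hJsum
  have hprob := Pool.Agent.Q270.SP.SV_prob θ d W J
  have hcard : ∀ N, ((I N).ncard : ℕ) = (J N).card := fun N => by
    rw [hJ, Set.ncard_coe_finset]
  obtain ⟨M1, hM1⟩ := eventually_atTop.1 ((hJcard (1 / 2) (by norm_num)).and
    (eventually_ge_atTop 1))
  have hne : ∀ N : ℕ, M1 ≤ N → (J N).Nonempty := fun N hN => by
    obtain ⟨h1, h2⟩ := hM1 N hN
    rw [← Finset.card_pos]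
    have h3 : (0 : ℝ) < (N : ℝ) ^ (1 - (1 / 2 : ℝ)) := by
      have : (0 : ℝ) < N := by exact_mod_cast h2
      positivity
    exact_mod_cast h3.trans_le h1
  refine ⟨?_, ?_⟩
  · intro B w ε hε
    obtain ⟨c, hc, M0, hM0⟩ := Pool.Agent.Q270.SP.normal_all hprob hgood hr B w A ε hε
    refine ⟨c, hc, max M0 M1, fun N hN ω P hω => ?_⟩
    have hN1 := hne N (le_of_max_le_right hN)
    have h1 := hM0 N (le_of_max_le_left hN) (J N) (vec θ ω P) hN1
      ⟨hN1, ω, P, fun j => ⟨(hω j).1, (hω j).2.1⟩, fun j => (hω j).2.2, rfl⟩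
    rw [ncard_eq (hJ N), hcard, mul_comm ((N : ℝ) ^ (-c))]
    refine le_trans (Nat.cast_le.2 (Finset.card_le_card fun p hp => ?_)) h1
    simp only [Finset.mem_filter] at hp ⊢
    refine ⟨hp.1, fun h2 => hp.2 ?_⟩
    intro b hb k D s L hk hkw hD hsL
    rw [cnt_eq]
    have h3 : (∏ j, (b j : ℝ) ^ k) = ((∏ j, b j : ℕ) : ℝ) ^ k := by
      rw [Finset.prod_pow]
      push_cast
      rfl
    rw [h3]
    exact h2 b hb k D s L hk hkw hD hsL
  · intro b w F hb hw hF ω P s L hω hL hsL t
    have key := Pool.Agent.Q270.SP.clt_T (ι := ℕ) hprob hgood hb hw F hF A J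
      (fun N m => vec θ (ω N) (P N) m) (by
        filter_upwards [eventually_ge_atTop M1, hω] with N h2 h3
        exact ⟨hne N h2, hne N h2, ω N, P N, fun j => ⟨(h3 j).1, (h3 j).2.1⟩,
          fun j => (h3 j).2.2, rfl⟩) s L hr hL hsL t
    refine key.congr fun N => ?_
    rw [ncard_eq (hJ N), hcard]
    congr 2
    apply congrArg Finset.card
    refine Finset.filter_congr fun m _ => ?_
    have h1 : ∑ i ∈ Finset.range (L N), F (Pool.Agent.Y951.TU.tw b w (fun j => s N j + i)
        (vec θ (ω N) (P N) m)) =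
        ∑ i ∈ Finset.range (L N), F (fun j => word (b j) w (s N j + i)
          (vec θ (ω N) (P N) m j)) := rfl
    have h2 : Pool.Agent.Y951.TU.mnT b w F = mean b w F := rfl
    have h3 : Pool.Agent.Y951.TU.cvT b w F 0 +
        2 * ∑ h ∈ Finset.Ico 1 w, Pool.Agent.Y951.TU.cvT b w F h = variance b w F := rfl
    rw [h1, h2, h3, sub_le_iff_le_add, add_comm (L N * mean b w F)]

end Pool.Agent.Results.MP_c8ecb2_nt.RootTuples
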